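import Pool.Agent.helper58.CRO.Bridge4

/-!
# MP_5bf3c3_gt: the optimal constant in Croke's inequality for small balls

`c_n^* = Vol(S^n)/π^n` for all `n ≥ 2`.

Paper proof: Pool/Agent/helper58/CRO/PROOF6.md
-/

open scoped Manifold ContDiff Topology ENNReal
open MeasureTheory Set Bundle Filter
open Pool.Agent.CROF

noncomputable section

namespace Pool.Agent.Results.MP_5bf3c3_gt.FullAnswer

universe u

/-- Let `n ≥ 2`. Then `c_n^* = Vol(S^n)/π^n`, where `Vol(S^n) = 2 π^((n+1)/2)/Γ((n+1)/2)`.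

Moreover, for all compact connected smooth Riemannian `n`-manifolds `(M, g)`, all `m ∈ M` and all
`r > 0`: `Vol B(m,r) ≥ Vol(S^n) (r/π)^n` if `r ≤ Inj(M, g)`, and
`Vol B(m,r) ≥ (Vol(S^n)/2) (2r/π)^n` if `2 r ≤ Inj(M, g)`.

The unit round sphere `S^n` has injectivity radius at least `π`, volume `Vol(S^n)`, and its balls of
radius `π` have volume `Vol(S^n)`, so that the infimum `c_n^*` is attained. -/
theorem _root_.Pool.Agent.Results.MP_5bf3c3_gt.FullAnswer.result (n : ℕ) (hn : 2 ≤ n) :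
    cstar n = ENNReal.ofReal (sphereVol n / Real.pi ^ n) ∧
    (∀ (M : Type u) [TopologicalSpace M] [T2Space M]
      [CompactSpace M] [ConnectedSpace M] [ChartedSpace (En n) M] [IsManifold 𝓘(ℝ, En n) ∞ M]
      (g : RMetric (En n) M) (m : M) (r : ℝ), 0 < r →
        (ENNReal.ofReal r ≤ injRad g →
          ENNReal.ofReal (sphereVol n * (r / Real.pi) ^ n) ≤ gvol g (gball g m r)) ∧
        (ENNReal.ofReal (2 * r) ≤ injRad g →
          ENNReal.ofReal (sphereVol n / 2 * (2 * r / Real.pi) ^ n) ≤ gvol g (gball g m r))) ∧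
    RoundSphereFacts n := by
  obtain ⟨g0, hg0⟩ := b4_SPG n
  exact ⟨b4_LCS n hn, fun M _ _ _ _ _ _ g m r hr =>
    ⟨fun hi => b4_LG1.{u} n hn M g m r hr hi, fun hi => b4_LGN.{u} n hn M g m r hr hi⟩,
    g0, hg0, b4_LRV n hn g0 hg0⟩

end Pool.Agent.Results.MP_5bf3c3_gt.FullAnswer
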